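import Mathlib

/-!
Kegel-Wielandt theorem, part 1: reduction to coprime orders (Kegel 1961).
-/

set_option autoImplicit false

universe u

namespace H87.KW

open Subgroup Pointwise
open scoped commutatorElement

section Perm

variable {G : Type u} [Group G]

/-- `X` and `Y` permute: `X Y ⊆ Y X`. -/
def Perm (X Y : Subgroup G) : Prop :=
  ∀ x ∈ X, ∀ y ∈ Y, ∃ y' ∈ Y, ∃ x' ∈ X, x * y = y' * x'

theorem Perm.symm {X Y : Subgroup G} (h : Perm X Y) : Perm Y X := by
  intro y hy x hx
  obtain ⟨y', hy', x', hx', e⟩ := h x⁻¹ (inv_mem hx) y⁻¹ (inv_mem hy)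
  refine ⟨x'⁻¹, inv_mem hx', y'⁻¹, inv_mem hy', ?_⟩
  have := congrArg (fun z => z⁻¹) e
  simpa [mul_inv_rev] using this

theorem Perm.iSup {ι : Sort*} {X : Subgroup G} {Y : ι → Subgroup G}
    (h : ∀ i, Perm X (Y i)) : Perm X (⨆ i, Y i) := by
  have key : ∀ y ∈ (⨆ i, Y i), ∀ x ∈ X, ∃ y' ∈ (⨆ i, Y i), ∃ x' ∈ X, x * y = y' * x' := by
    intro y hy
    refine Subgroup.iSup_induction Y
      (C := fun y => ∀ x ∈ X, ∃ y' ∈ (⨆ i, Y i), ∃ x' ∈ X, x * y = y' * x') hy ?_ ?_ ?_
    · intro i y hy x hx
      obtain ⟨y', hy', x', hx', e⟩ := h i x hx y hy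
      exact ⟨y', (le_iSup Y i) hy', x', hx', e⟩
    · intro x hx
      exact ⟨1, one_mem _, x, hx, by simp⟩
    · intro y1 y2 h1 h2 x hx
      obtain ⟨y1', hy1', x1, hx1, e1⟩ := h1 x hx
      obtain ⟨y2', hy2', x2, hx2, e2⟩ := h2 x1 hx1
      refine ⟨y1' * y2', mul_mem hy1' hy2', x2, hx2, ?_⟩
      rw [← mul_assoc, e1, mul_assoc, e2, mul_assoc]
  exact fun x hx y hy => key y hy x hx

theorem Perm.exists_mul {X Y : Subgroup G} (h : Perm X Y) {z : G} (hz : z ∈ X ⊔ Y) :
    ∃ x ∈ X, ∃ y ∈ Y, z = x * y := by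
  let J : Subgroup G :=
    { carrier := {z | ∃ x ∈ X, ∃ y ∈ Y, z = x * y}
      mul_mem' := by
        rintro _ _ ⟨x1, hx1, y1, hy1, rfl⟩ ⟨x2, hx2, y2, hy2, rfl⟩
        obtain ⟨x', hx', y', hy', e⟩ := h.symm y1 hy1 x2 hx2
        refine ⟨x1 * x', mul_mem hx1 hx', y' * y2, mul_mem hy' hy2, ?_⟩
        calc x1 * y1 * (x2 * y2) = x1 * (y1 * x2) * y2 := by group
          _ = x1 * (x' * y') * y2 := by rw [e]
          _ = x1 * x' * (y' * y2) := by group
      one_mem' := ⟨1, one_mem _, 1, one_mem _, by simp⟩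
      inv_mem' := by
        rintro _ ⟨x, hx, y, hy, rfl⟩
        obtain ⟨x', hx', y', hy', e⟩ := h.symm y⁻¹ (inv_mem hy) x⁻¹ (inv_mem hx)
        exact ⟨x', hx', y', hy', by rw [mul_inv_rev, e]⟩ }
  have hX : X ≤ J := fun x hx => ⟨x, hx, 1, one_mem _, by simp⟩
  have hY : Y ≤ J := fun y hy => ⟨1, one_mem _, y, hy, by simp⟩
  exact (sup_le hX hY) hz

theorem relIndex_sup_of_perm {X Y : Subgroup G} (h : Perm X Y) :
    Y.relIndex (X ⊔ Y) = Y.relIndex X := by
  have hbij : Function.Bijective (quotientSubgroupOfEmbeddingOfLE Y (le_sup_left : X ≤ X ⊔ Y)) := by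
    refine ⟨(quotientSubgroupOfEmbeddingOfLE Y (le_sup_left : X ≤ X ⊔ Y)).injective, ?_⟩
    intro q
    induction q using QuotientGroup.induction_on with
    | H z =>
      obtain ⟨x, hx, y, hy, e⟩ := h.exists_mul z.2
      refine ⟨(QuotientGroup.mk (⟨x, hx⟩ : X)), ?_⟩
      rw [quotientSubgroupOfEmbeddingOfLE_apply_mk]
      rw [QuotientGroup.eq]
      rw [mem_subgroupOf]
      simp only [Subgroup.coe_mul, InvMemClass.coe_inv]
      rw [e]
      simpa using hy
  exact (Nat.card_congr (Equiv.ofBijective _ hbij)).symm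

theorem isPGroup_sup_of_perm [Finite G] {p : ℕ} [Fact p.Prime] {X Y : Subgroup G}
    (h : Perm X Y) (hX : IsPGroup p X) (hY : IsPGroup p Y) : IsPGroup p (X ⊔ Y : Subgroup G) := by
  rw [IsPGroup.iff_card] at hX hY ⊢
  obtain ⟨a, ha⟩ := hX
  obtain ⟨b, hb⟩ := hY
  have h1 : Nat.card Y * Y.relIndex (X ⊔ Y) = Nat.card (X ⊔ Y : Subgroup G) := by
    have := Subgroup.card_mul_index (Y.subgroupOf (X ⊔ Y))
    rw [← this]
    congr 1
    exact (Nat.card_congr (subgroupOfEquivOfLe le_sup_right).toEquiv).symm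
  have h2 : Y.relIndex X ∣ Nat.card X := Subgroup.index_dvd_card _
  rw [ha] at h2
  obtain ⟨c, -, hc⟩ := (Nat.dvd_prime_pow (Fact.out : p.Prime)).1 h2
  refine ⟨b + c, ?_⟩
  rw [← h1, relIndex_sup_of_perm h, hb, hc, pow_add]

/-- conjugates -/
theorem mem_conj {x g : G} {K : Subgroup G} :
    g ∈ MulAut.conj x • K ↔ x⁻¹ * g * x ∈ K := by
  rw [Subgroup.mem_pointwise_smul_iff_inv_smul_mem]
  simp [MulAut.smul_def, mul_assoc]

theorem conj_iSup {ι : Sort*} (g : G) (Y : ι → Subgroup G) :
    MulAut.conj g • (⨆ i, Y i) = ⨆ i, MulAut.conj g • Y i := by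
  simp only [Subgroup.pointwise_smul_def]
  exact Subgroup.map_iSup _ _

theorem Perm.conj {X Y : Subgroup G} (h : Perm X Y) (g : G) :
    Perm (MulAut.conj g • X) (MulAut.conj g • Y) := by
  intro x hx y hy
  rw [mem_conj] at hx hy
  obtain ⟨y', hy', x', hx', e⟩ := h _ hx _ hy
  refine ⟨g * y' * g⁻¹, ?_, g * x' * g⁻¹, ?_, ?_⟩
  · rw [mem_conj]; simpa [mul_assoc] using hy'
  · rw [mem_conj]; simpa [mul_assoc] using hx'
  · have : g * ((g⁻¹ * x * g) * (g⁻¹ * y * g)) * g⁻¹ = g * (y' * x') * g⁻¹ := by rw [e]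
    calc x * y = g * ((g⁻¹ * x * g) * (g⁻¹ * y * g)) * g⁻¹ := by group
      _ = g * (y' * x') * g⁻¹ := this
      _ = g * y' * g⁻¹ * (g * x' * g⁻¹) := by group

end Perm

section Kegel

variable {G : Type u} [Group G]

/-- Kegel's lemma (K1). -/
theorem kegel_comm [Finite G] {p : ℕ} [Fact p.Prime] (H K : Subgroup G)
    (hH : IsPGroup p H) (hK : IsPGroup p K)
    (hperm : ∀ x : G, Perm H (MulAut.conj x • K)) :
    ∃ N : Subgroup G, N.Normal ∧ IsPGroup p N ∧
      ⁅normalClosure (H : Set G), normalClosure (K : Set G)⁆ ≤ N := by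
  classical
  -- a maximal `Y`
  let S : Set (Subgroup G) :=
    {Y | K ≤ Y ∧ IsPGroup p Y ∧ ∀ x : G, Perm H (MulAut.conj x • Y)}
  have hSne : S.Nonempty := ⟨K, le_rfl, hK, hperm⟩
  obtain ⟨Y, hYmax⟩ := (Set.toFinite S).exists_maximal hSne
  have hYS : Y ∈ S := hYmax.prop
  obtain ⟨hKY, hYp, hYperm⟩ := hYS
  -- every conjugate of `H` normalises `Y`
  have hnorm : ∀ x : G, ∀ h ∈ H, ∀ y ∈ Y, (x * h * x⁻¹) * y * (x * h * x⁻¹)⁻¹ ∈ Y := by
    intro x h hh y hy
    -- Y' = join of the conjugates of Y under H^x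
    let Y' : Subgroup G := ⨆ k : H, MulAut.conj (x * (k : G) * x⁻¹) • Y
    have hYY' : Y ≤ Y' := by
      refine le_trans ?_ (le_iSup (fun k : H => MulAut.conj (x * (k : G) * x⁻¹) • Y) 1)
      intro z hz
      rw [mem_conj]
      simpa using hz
    have hle : Y' ≤ (MulAut.conj x • H) ⊔ Y := by
      refine iSup_le ?_
      intro k z hz
      rw [mem_conj] at hz
      have hk : x * (k : G) * x⁻¹ ∈ (MulAut.conj x • H) ⊔ Y := by
        apply (le_sup_left : MulAut.conj x • H ≤ _)
        rw [mem_conj]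
        simpa [mul_assoc] using k.2
      have hz' : (x * (k : G) * x⁻¹)⁻¹ * z * (x * (k : G) * x⁻¹) ∈ (MulAut.conj x • H) ⊔ Y :=
        (le_sup_right : Y ≤ _) hz
      have := mul_mem (mul_mem hk hz') (inv_mem hk)
      have e : x * (k : G) * x⁻¹ * ((x * (k : G) * x⁻¹)⁻¹ * z * (x * (k : G) * x⁻¹)) *
        (x * (k : G) * x⁻¹)⁻¹ = z := by group
      rwa [e] at this
    have hpermx : Perm (MulAut.conj x • H) Y := by
      have := (hYperm x⁻¹).conj x
      rwa [← mul_smul, ← map_mul, mul_inv_cancel, map_one, one_smul] at this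
    have hpx : IsPGroup p (MulAut.conj x • H : Subgroup G) :=
      hH.of_equiv (Subgroup.equivSMul (MulAut.conj x) H)
    have hY'p : IsPGroup p Y' :=
      (isPGroup_sup_of_perm hpermx hpx hYp).to_le hle
    have hY'perm : ∀ w : G, Perm H (MulAut.conj w • Y') := by
      intro w
      have e : MulAut.conj w • Y' =
          ⨆ k : H, MulAut.conj (w * (x * (k : G) * x⁻¹)) • Y := by
        simp only [Y']
        rw [conj_iSup]
        congr 1
        funext k
        rw [map_mul (MulAut.conj) w, mul_smul]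
      rw [e]
      exact Perm.iSup fun k => hYperm _
    have hY'S : Y' ∈ S := ⟨hKY.trans hYY', hY'p, hY'perm⟩
    have hYeq : Y' ≤ Y := hYmax.le_of_ge hY'S hYY'
    apply hYeq
    apply (le_iSup (fun k : H => MulAut.conj (x * (k : G) * x⁻¹) • Y) ⟨h, hh⟩)
    rw [mem_conj]
    have e : (x * h * x⁻¹)⁻¹ * ((x * h * x⁻¹) * y * (x * h * x⁻¹)⁻¹) * (x * h * x⁻¹) = y := by
      group
    change (x * h * x⁻¹)⁻¹ * ((x * h * x⁻¹) * y * (x * h * x⁻¹)⁻¹) * (x * h * x⁻¹) ∈ Y
    rw [e]
    exact hy
  -- R normalises Y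
  set R : Subgroup G := normalClosure (H : Set G) with hR
  have hRY : R ≤ Subgroup.normalizer (Y : Set G) := by
    rw [hR, normalClosure, closure_le]
    intro r hr
    rw [Group.mem_conjugatesOfSet_iff] at hr
    obtain ⟨h, hh, c⟩ := hr
    rw [isConj_iff] at c
    obtain ⟨x, rfl⟩ := c
    have h1 : ∀ y ∈ Y, (x * h * x⁻¹) * y * (x * h * x⁻¹)⁻¹ ∈ Y := hnorm x h hh
    have h2 : ∀ y ∈ Y, (x * h * x⁻¹)⁻¹ * y * (x * h * x⁻¹) ∈ Y := by
      intro y hy
      have := hnorm x h⁻¹ (inv_mem hh) y hy
      have e : x * h⁻¹ * x⁻¹ * y * (x * h⁻¹ * x⁻¹)⁻¹ = (x * h * x⁻¹)⁻¹ * y * (x * h * x⁻¹) := by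
        group
      rwa [e] at this
    rw [SetLike.mem_coe, Subgroup.mem_normalizer_iff]
    intro y
    refine ⟨h1 y, fun hy => ?_⟩
    have := h2 _ hy
    have e : (x * h * x⁻¹)⁻¹ * (x * h * x⁻¹ * y * (x * h * x⁻¹)⁻¹) * (x * h * x⁻¹) = y := by group
    rwa [e] at this
  have hRn : R.Normal := normalClosure_normal
  -- Q = Y ∩ R
  set Q : Subgroup G := Y ⊓ R with hQ
  -- N = join of conjugates of Q
  let N : Subgroup G := ⨆ g : G, MulAut.conj g • Q
  have hNn : N.Normal := by
    constructor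
    intro n hn g
    have e : MulAut.conj g • N = N := by
      simp only [N]
      rw [conj_iSup]
      apply le_antisymm
      · refine iSup_le fun k => ?_
        rw [← mul_smul, ← map_mul]
        exact le_iSup (fun g : G => MulAut.conj g • Q) (g * k)
      · refine iSup_le fun k => ?_
        refine le_trans ?_ (le_iSup (fun k : G => MulAut.conj g • MulAut.conj k • Q) (g⁻¹ * k))
        rw [← mul_smul, ← map_mul, mul_inv_cancel_left]
    have : g * n * g⁻¹ ∈ MulAut.conj g • N := by
      rw [mem_conj]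
      simpa [mul_assoc] using hn
    rwa [e] at this
  have hconjR : ∀ g : G, MulAut.conj g • Q ≤ R := by
    intro g z hz
    rw [mem_conj] at hz
    have := hRn.conj_mem _ hz.2 g
    simpa [mul_assoc] using this
  have hNp : IsPGroup p N := by
    have hnor : ∀ g : G, ((MulAut.conj g • Q).subgroupOf R).Normal := by
      intro g
      constructor
      intro n hn r
      rw [mem_subgroupOf] at hn ⊢
      rw [mem_conj] at hn ⊢
      rw [Subgroup.coe_mul, Subgroup.coe_mul, Subgroup.coe_inv]
      -- conjugate of r under g⁻¹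
      have hr' : g⁻¹ * (r : G) * g ∈ R := by
        have := hRn.conj_mem _ r.2 g⁻¹
        simpa using this
      have e : g⁻¹ * ((r : G) * (n : G) * (r : G)⁻¹) * g =
          (g⁻¹ * (r : G) * g) * (g⁻¹ * (n : G) * g) * (g⁻¹ * (r : G) * g)⁻¹ := by group
      rw [e]
      have hn2 : g⁻¹ * (n : G) * g ∈ R := hn.2
      have hn1 : g⁻¹ * (n : G) * g ∈ Y := hn.1
      exact Subgroup.mem_inf.2 ⟨((Subgroup.mem_normalizer_iff).1 (hRY hr') _).1 hn1,
        R.mul_mem (R.mul_mem hr' hn2) (R.inv_mem hr')⟩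
    have hp : ∀ g : G, IsPGroup p ((MulAut.conj g • Q).subgroupOf R) := by
      intro g
      have h1 : IsPGroup p (MulAut.conj g • Q : Subgroup G) := by
        have hQp : IsPGroup p Q := hYp.to_le inf_le_left
        exact hQp.of_equiv (Subgroup.equivSMul (MulAut.conj g) Q)
      exact h1.of_equiv (subgroupOfEquivOfLe (hconjR g)).symm
    have hsup : IsPGroup p (⨆ g : G, (MulAut.conj g • Q).subgroupOf R : Subgroup R) :=
      Sylow.iSup_of_normal (p := p) (fun g : G => (MulAut.conj g • Q).subgroupOf R) hp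
    have hmap : N ≤ (⨆ g : G, (MulAut.conj g • Q).subgroupOf R).map R.subtype := by
      refine iSup_le fun g z hz => ?_
      refine ⟨⟨z, hconjR g hz⟩, ?_, rfl⟩
      apply (le_iSup (fun g : G => (MulAut.conj g • Q).subgroupOf R) g)
      rw [mem_subgroupOf]
      exact hz
    exact (hsup.map R.subtype).to_le hmap
  refine ⟨N, hNn, hNp, ?_⟩
  rw [commutator_le]
  intro r hr s hs
  have hcl : s ∈ closure (Group.conjugatesOfSet (K : Set G)) := hs
  clear hs
  revert r
  induction hcl using Subgroup.closure_induction with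
  | mem s hs' =>
    intro r hr
    rw [Group.mem_conjugatesOfSet_iff] at hs'
    obtain ⟨k, hk, c⟩ := hs'
    rw [isConj_iff] at c
    obtain ⟨g, rfl⟩ := c
    have hr' : g⁻¹ * r * g ∈ R := by
      have := hRn.conj_mem _ hr g⁻¹
      simpa using this
    apply (le_iSup (fun g : G => MulAut.conj g • Q) g)
    rw [mem_conj]
    have e : g⁻¹ * ⁅r, g * k * g⁻¹⁆ * g = ⁅g⁻¹ * r * g, k⁆ := by
      simp only [commutatorElement_def]; group
    rw [e]
    have hkY : k ∈ Y := hKY hk
    refine Subgroup.mem_inf.2 ⟨?_, ?_⟩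
    · rw [commutatorElement_def]
      exact mul_mem (((Subgroup.mem_normalizer_iff).1 (hRY hr') _).1 hkY) (inv_mem hkY)
    · rw [commutatorElement_def]
      have e2 : g⁻¹ * r * g * k * (g⁻¹ * r * g)⁻¹ * k⁻¹ =
        (g⁻¹ * r * g) * (k * (g⁻¹ * r * g)⁻¹ * k⁻¹) := by group
      rw [e2]
      exact R.mul_mem hr' (hRn.conj_mem _ (R.inv_mem hr') k)
  | one => intro r hr; simp
  | mul a b ha hb iha ihb =>
    intro r hr
    have e : ⁅r, a * b⁆ = ⁅r, a⁆ * (a * ⁅r, b⁆ * a⁻¹) := by
      simp only [commutatorElement_def]; group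
    rw [e]
    exact mul_mem (iha r hr) (hNn.conj_mem _ (ihb r hr) a)
  | inv a ha iha =>
    intro r hr
    have e : ⁅r, a⁻¹⁆ = a⁻¹ * (⁅r, a⁆)⁻¹ * a := by
      simp only [commutatorElement_def]; group
    rw [e]
    have := hNn.conj_mem _ (inv_mem (iha r hr)) a⁻¹
    simpa using this

end Kegel

section Reduction

variable {G : Type u} [Group G]

theorem card_relIndex_mul (X Y : Subgroup G) :
    Y.relIndex X * Nat.card (X ⊓ Y : Subgroup G) = Nat.card X := by
  have h := Subgroup.card_mul_index (Y.subgroupOf X)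
  have e : Nat.card (Y.subgroupOf X) = Nat.card (X ⊓ Y : Subgroup G) := by
    rw [← Subgroup.inf_subgroupOf_left]
    exact Nat.card_congr (subgroupOfEquivOfLe inf_le_left).toEquiv
  rw [e] at h
  rw [← h, mul_comm]
  rfl

theorem perm_of_mul {X Y : Subgroup G} (h : ∀ g : G, ∃ a ∈ X, ∃ b ∈ Y, g = a * b) :
    Perm X Y := by
  intro x _ y _
  obtain ⟨a, ha, b, hb, e⟩ := h (x * y)⁻¹
  refine ⟨b⁻¹, inv_mem hb, a⁻¹, inv_mem ha, ?_⟩
  have := congrArg (fun z => z⁻¹) e
  simpa [mul_inv_rev] using this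

theorem sup_eq_top_of_mul {X Y : Subgroup G} (h : ∀ g : G, ∃ a ∈ X, ∃ b ∈ Y, g = a * b) :
    X ⊔ Y = ⊤ := by
  rw [eq_top_iff]
  intro g _
  obtain ⟨a, ha, b, hb, rfl⟩ := h g
  exact mul_mem ((le_sup_left : X ≤ _) ha) ((le_sup_right : Y ≤ _) hb)

theorem conj_map_eq {A : Subgroup G} (P : Subgroup A) [hP : P.Normal] {a : G} (ha : a ∈ A) :
    MulAut.conj a • (P.map A.subtype) = P.map A.subtype := by
  ext z
  rw [mem_conj]
  constructor
  · rintro ⟨w, hw, e⟩
    refine ⟨⟨a, ha⟩ * w * ⟨a, ha⟩⁻¹, hP.conj_mem w hw _, ?_⟩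
    simp only [Subgroup.subtype_apply] at e
    simp only [map_mul, map_inv, Subgroup.subtype_apply, e]
    group
  · rintro ⟨w, hw, rfl⟩
    refine ⟨⟨a, ha⟩⁻¹ * w * (⟨a, ha⟩⁻¹)⁻¹, hP.conj_mem w hw _, ?_⟩
    simp only [map_mul, map_inv, Subgroup.subtype_apply, inv_inv]

theorem perm_sylow [Finite G] {p : ℕ} [hp : Fact p.Prime] (A B : Subgroup G)
    (hAB : ∀ g : G, ∃ a ∈ A, ∃ b ∈ B, g = a * b) (P : Sylow p A) (Q : Sylow p B)
    [hP : (P : Subgroup A).Normal] [hQ : (Q : Subgroup B).Normal] :
    Perm ((P : Subgroup A).map A.subtype) ((Q : Subgroup B).map B.subtype) := by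
  classical
  set H : Subgroup G := (P : Subgroup A).map A.subtype with hH
  set K : Subgroup G := (Q : Subgroup B).map B.subtype with hK
  have hHA : H ≤ A := by rintro _ ⟨w, _, rfl⟩; exact w.2
  have hKB : K ≤ B := by rintro _ ⟨w, _, rfl⟩; exact w.2
  have hHp : IsPGroup p H := P.2.map A.subtype
  have hKp : IsPGroup p K := Q.2.map B.subtype
  have cH : Nat.card H = p ^ (Nat.card A).factorization p := by
    rw [← P.card_eq_multiplicity]
    exact (Nat.card_congr ((P : Subgroup A).equivMapOfInjective A.subtype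
      A.subtype_injective).toEquiv).symm
  have cK : Nat.card K = p ^ (Nat.card B).factorization p := by
    rw [← Q.card_eq_multiplicity]
    exact (Nat.card_congr ((Q : Subgroup B).equivMapOfInjective B.subtype
      B.subtype_injective).toEquiv).symm
  -- a common Sylow subgroup
  obtain ⟨P1, hP1⟩ := hHp.exists_le_sylow
  obtain ⟨Q1, hQ1⟩ := hKp.exists_le_sylow
  obtain ⟨g, hg⟩ := MulAction.exists_smul_eq G P1 Q1
  obtain ⟨a, ha, b, hb, e⟩ := hAB g⁻¹
  have e' : g = b⁻¹ * a⁻¹ := by
    have := congrArg (fun z => z⁻¹) e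
    simpa [mul_inv_rev] using this
  let S : Sylow p G := a⁻¹ • P1
  have hHS : H ≤ (S : Subgroup G) := by
    intro z hz
    change z ∈ MulAut.conj a⁻¹ • (P1 : Subgroup G)
    rw [mem_conj]
    apply hP1
    rw [← mem_conj, conj_map_eq (P : Subgroup A) (inv_mem ha)]
    exact hz
  have hKS : K ≤ (S : Subgroup G) := by
    intro z hz
    change z ∈ MulAut.conj a⁻¹ • (P1 : Subgroup G)
    have h1 : b⁻¹ * z * b ∈ (Q1 : Subgroup G) := by
      apply hQ1
      have : z ∈ MulAut.conj b • K := by
        rw [hK, conj_map_eq (Q : Subgroup B) hb]; exact hz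
      rwa [mem_conj] at this
    rw [← hg] at h1
    change b⁻¹ * z * b ∈ MulAut.conj g • (P1 : Subgroup G) at h1
    rw [mem_conj, e'] at h1
    rw [mem_conj]
    have e2 : (b⁻¹ * a⁻¹)⁻¹ * (b⁻¹ * z * b) * (b⁻¹ * a⁻¹) = (a⁻¹)⁻¹ * z * a⁻¹ := by group
    rwa [e2] at h1
  -- counting
  have hcardS : Nat.card S = p ^ (Nat.card G).factorization p := S.card_eq_multiplicity
  have hperm := perm_of_mul hAB
  have hidx : B.index = B.relIndex A := by
    have := relIndex_sup_of_perm hperm
    rwa [sup_eq_top_of_mul hAB, Subgroup.relIndex_top_right] at this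
  have hAne : Nat.card A ≠ 0 := Nat.card_pos.ne'
  have hBne : Nat.card B ≠ 0 := Nat.card_pos.ne'
  have hGne : Nat.card G ≠ 0 := Nat.card_pos.ne'
  have hABne : Nat.card (A ⊓ B : Subgroup G) ≠ 0 := Nat.card_pos.ne'
  have hidxne : B.relIndex A ≠ 0 := by
    intro h0
    have := card_relIndex_mul A B
    rw [h0, zero_mul] at this
    exact hAne this.symm
  have f1 : (Nat.card G).factorization p =
      (Nat.card B).factorization p + (B.relIndex A).factorization p := by
    rw [← Subgroup.card_mul_index B, hidx, Nat.factorization_mul hBne hidxne]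
    rfl
  have f2 : (Nat.card A).factorization p =
      (B.relIndex A).factorization p + (Nat.card (A ⊓ B : Subgroup G)).factorization p := by
    rw [← card_relIndex_mul A B, Nat.factorization_mul hidxne hABne]
    rfl
  have hHKp : IsPGroup p (H ⊓ K : Subgroup G) := hHp.to_le inf_le_left
  obtain ⟨c, hc⟩ := (IsPGroup.iff_card).1 hHKp
  have hcle : c ≤ (Nat.card (A ⊓ B : Subgroup G)).factorization p := by
    have hd : p ^ c ∣ Nat.card (A ⊓ B : Subgroup G) := by
      rw [← hc]
      exact Subgroup.card_dvd_of_le (inf_le_inf hHA hKB)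
    exact (hp.out.pow_dvd_iff_le_factorization hABne).1 hd
  have r1 : K.relIndex H * p ^ c = p ^ (Nat.card A).factorization p := by
    rw [← hc, ← cH]; exact card_relIndex_mul H K
  have r2 : K.relIndex (S : Subgroup G) * p ^ (Nat.card B).factorization p =
      p ^ (Nat.card G).factorization p := by
    have := card_relIndex_mul (S : Subgroup G) K
    rw [inf_eq_right.2 hKS, cK] at this
    rw [this]; exact hcardS
  have hppos : 0 < p := hp.out.pos
  have r2' : K.relIndex (S : Subgroup G) = p ^ (B.relIndex A).factorization p := by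
    have : K.relIndex (S : Subgroup G) * p ^ (Nat.card B).factorization p =
        p ^ (B.relIndex A).factorization p * p ^ (Nat.card B).factorization p := by
      rw [r2, f1, pow_add, mul_comm]
    exact Nat.eq_of_mul_eq_mul_right (pow_pos hppos _) this
  have r1' : p ^ (B.relIndex A).factorization p ≤ K.relIndex H := by
    have h3 : p ^ (B.relIndex A).factorization p * p ^ c ≤ K.relIndex H * p ^ c := by
      rw [r1, f2, ← pow_add]
      exact Nat.pow_le_pow_right hppos (by omega)
    exact Nat.le_of_mul_le_mul_right h3 (pow_pos hppos _)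
  -- surjectivity of the embedding
  have hsurj : Function.Surjective (quotientSubgroupOfEmbeddingOfLE K hHS) := by
    have : Finite (H ⧸ K.subgroupOf H) := inferInstance
    have : Finite ((S : Subgroup G) ⧸ K.subgroupOf (S : Subgroup G)) := inferInstance
    have hinj := (quotientSubgroupOfEmbeddingOfLE K hHS).injective
    have hcard : Nat.card ((S : Subgroup G) ⧸ K.subgroupOf (S : Subgroup G)) ≤
        Nat.card (H ⧸ K.subgroupOf H) := by
      change K.relIndex (S : Subgroup G) ≤ K.relIndex H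
      rw [r2']; exact r1'
    exact (Function.Injective.bijective_of_nat_card_le hinj hcard).2
  have hS : ∀ z ∈ (S : Subgroup G), ∃ h ∈ H, ∃ k ∈ K, z = h * k := by
    intro z hz
    obtain ⟨q, hq⟩ := hsurj (QuotientGroup.mk (⟨z, hz⟩ : (S : Subgroup G)))
    induction q using QuotientGroup.induction_on with
    | H h =>
      rw [quotientSubgroupOfEmbeddingOfLE_apply_mk, QuotientGroup.eq, mem_subgroupOf] at hq
      refine ⟨h, h.2, (h : G)⁻¹ * z, ?_, by group⟩
      simpa using hq
  intro x hx y hy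
  have hxy : (x * y)⁻¹ ∈ (S : Subgroup G) := inv_mem (mul_mem (hHS hx) (hKS hy))
  obtain ⟨h, hh, k, hk, e3⟩ := hS _ hxy
  refine ⟨k⁻¹, inv_mem hk, h⁻¹, inv_mem hh, ?_⟩
  have := congrArg (fun z => z⁻¹) e3
  simpa [mul_inv_rev] using this

theorem solvable_of_quot {N : Subgroup G} [N.Normal] (h1 : Group.IsSolvable N)
    (h2 : Group.IsSolvable (G ⧸ N)) : Group.IsSolvable G := by
  have := h1
  have := h2
  refine Group.isSolvable_of_ker_le_range N.subtype (QuotientGroup.mk' N) ?_
  rw [QuotientGroup.ker_mk', Subgroup.range_subtype]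

/-- **Reduction of the Kegel-Wielandt theorem to coprime orders** (Kegel 1961). -/
theorem kw_reduction
    (hcop : ∀ (G : Type u) [Group G] [Finite G] (A B : Subgroup G),
      (∀ g : G, ∃ a ∈ A, ∃ b ∈ B, g = a * b) → Group.IsNilpotent A → Group.IsNilpotent B →
      Nat.Coprime (Nat.card A) (Nat.card B) → Group.IsSolvable G) :
    ∀ (G : Type u) [Group G] [Finite G] (A B : Subgroup G),
      (∀ g : G, ∃ a ∈ A, ∃ b ∈ B, g = a * b) → Group.IsNilpotent A → Group.IsNilpotent B →
      Group.IsSolvable G := by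
  suffices H : ∀ (n : ℕ) (G : Type u) [Group G] [Finite G] (A B : Subgroup G), Nat.card G = n →
      (∀ g : G, ∃ a ∈ A, ∃ b ∈ B, g = a * b) → Group.IsNilpotent A → Group.IsNilpotent B →
      Group.IsSolvable G from fun G _ _ A B => H _ G A B rfl
  intro n
  induction n using Nat.strong_induction_on with
  | _ n ih =>
    intro G _ _ A B hn hAB hA hB
    -- quotients by nontrivial normal subgroups are soluble
    have hquot : ∀ N : Subgroup G, ∀ _ : N.Normal, N ≠ ⊥ → Group.IsSolvable (G ⧸ N) := by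
      intro N hN hne
      have hlt : Nat.card (G ⧸ N) < n := by
        have h1 : Nat.card G = Nat.card (G ⧸ N) * Nat.card N :=
          Subgroup.card_eq_card_quotient_mul_card_subgroup N
        have h2 : 1 < Nat.card N := by
          by_contra hc
          exact hne (Subgroup.eq_bot_of_card_le N (by omega))
        have h3 : 0 < Nat.card (G ⧸ N) := Nat.card_pos
        rw [← hn, h1]
        nlinarith
      refine ih _ hlt (G ⧸ N) (A.map (QuotientGroup.mk' N)) (B.map (QuotientGroup.mk' N)) rfl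
        ?_ ?_ ?_
      · intro q
        induction q using QuotientGroup.induction_on with
        | H g =>
          obtain ⟨a, ha, b, hb, rfl⟩ := hAB g
          exact ⟨_, ⟨a, ha, rfl⟩, _, ⟨b, hb, rfl⟩, rfl⟩
      · exact Group.nilpotent_of_surjective ((QuotientGroup.mk' N).subgroupMap A)
          ((QuotientGroup.mk' N).subgroupMap_surjective A)
      · exact Group.nilpotent_of_surjective ((QuotientGroup.mk' N).subgroupMap B)
          ((QuotientGroup.mk' N).subgroupMap_surjective B)
    by_cases hc : Nat.Coprime (Nat.card A) (Nat.card B)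
    · exact hcop G A B hAB hA hB hc
    · obtain ⟨p, hp, hpA, hpB⟩ := Nat.Prime.not_coprime_iff_dvd.1 hc
      have : Fact p.Prime := ⟨hp⟩
      obtain ⟨P⟩ := (inferInstance : Nonempty (Sylow p A))
      obtain ⟨Q⟩ := (inferInstance : Nonempty (Sylow p B))
      have hP : (P : Subgroup A).Normal := inferInstance
      have hQ : (Q : Subgroup B).Normal := inferInstance
      set H : Subgroup G := (P : Subgroup A).map A.subtype with hH
      set K : Subgroup G := (Q : Subgroup B).map B.subtype with hK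
      have hperm0 : Perm H K := perm_sylow A B hAB P Q
      have hperm : ∀ x : G, Perm H (MulAut.conj x • K) := by
        intro x
        obtain ⟨a, ha, b, hb, rfl⟩ := hAB x
        have h1 : MulAut.conj (a * b) • K = MulAut.conj a • K := by
          rw [map_mul, mul_smul, hK, conj_map_eq (Q : Subgroup B) hb]
        have h2 : MulAut.conj a • H = H := conj_map_eq (P : Subgroup A) ha
        rw [h1]
        have := hperm0.conj a
        rwa [h2] at this
      have hHp : IsPGroup p H := P.2.map A.subtype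
      have hKp : IsPGroup p K := Q.2.map B.subtype
      obtain ⟨N, hNn, hNp, hle⟩ := kegel_comm H K hHp hKp hperm
      by_cases hNb : N = ⊥
      · -- the two normal closures commute
        rw [hNb, le_bot_iff] at hle
        set M1 : Subgroup G := normalClosure (H : Set G) with hM1
        set M2 : Subgroup G := normalClosure (K : Set G) with hM2
        have : M1.Normal := normalClosure_normal
        have : M2.Normal := normalClosure_normal
        have hHne : H ≠ ⊥ := by
          intro h0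
          have : Nat.card H = 1 := by rw [h0]; simp
          have h3 : p ∣ Nat.card H := by
            have h4 := P.dvd_card_of_dvd_card hpA
            rwa [Nat.card_congr ((P : Subgroup A).equivMapOfInjective A.subtype
              A.subtype_injective).toEquiv] at h4
          rw [this] at h3
          exact hp.one_lt.ne' (Nat.dvd_one.1 h3)
        have hKne : K ≠ ⊥ := by
          intro h0
          have : Nat.card K = 1 := by rw [h0]; simp
          have h3 : p ∣ Nat.card K := by
            have h4 := Q.dvd_card_of_dvd_card hpB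
            rwa [Nat.card_congr ((Q : Subgroup B).equivMapOfInjective B.subtype
              B.subtype_injective).toEquiv] at h4
          rw [this] at h3
          exact hp.one_lt.ne' (Nat.dvd_one.1 h3)
        have hM1ne : M1 ≠ ⊥ := fun h0 => hHne (le_bot_iff.1 (h0 ▸ le_normalClosure))
        have hM2ne : M2 ≠ ⊥ := fun h0 => hKne (le_bot_iff.1 (h0 ▸ le_normalClosure))
        have s1 := hquot M1 inferInstance hM1ne
        have s2 := hquot M2 inferInstance hM2ne
        by_cases hD : M1 ⊓ M2 = ⊥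
        · -- G embeds in the product
          let f : G →* (G ⧸ M1) × (G ⧸ M2) := (QuotientGroup.mk' M1).prod (QuotientGroup.mk' M2)
          have hf : Function.Injective f := by
            rw [← MonoidHom.ker_eq_bot_iff, MonoidHom.ker_prod, QuotientGroup.ker_mk',
              QuotientGroup.ker_mk']
            exact hD
          exact Group.isSolvable_of_isSolvable_injective hf
        · have hDab : Group.IsSolvable (M1 ⊓ M2 : Subgroup G) := by
            refine Group.isSolvable_of_comm ?_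
            intro x y
            have h1 : ⁅(x : G), (y : G)⁆ ∈ (⊥ : Subgroup G) := by
              rw [← hle]
              exact commutator_mem_commutator x.2.1 y.2.2
            rw [mem_bot, commutatorElement_eq_one_iff_mul_comm] at h1
            exact Subtype.ext h1
          have : (M1 ⊓ M2).Normal := inferInstance
          exact solvable_of_quot hDab (hquot _ inferInstance hD)
      · have hNnil : Group.IsNilpotent N := hNp.isNilpotent
        have hNs : Group.IsSolvable N := inferInstance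
        exact solvable_of_quot hNs (hquot N hNn hNb)

end Reduction

end H87.KW
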